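import Mathlib
import Pool.Agent.V1168.EF.Higher
import Pool.Agent.V1168.EF.Rel

/-!
# The generalized conjecture of Tate and Beilinson for the products of arbitrary varieties with abelian
varieties: the exceptional factors have small dimension

Let `K i` (`i` in a set `I`, which may be **infinite**) be CM fields with pair flips (`PairFlips`): for
any two complex embeddings `φ` of `K i` and `ψ` of `K k` (with `i = k` or not) which are neither equal
nor complex conjugate, some automorphism of `ℂ` is the identity on `φ (K i)` and the complex conjugation
on `ψ (K k)`. One CM field `K` of degree `2 g` has this property if the Galois group of its normal
closure is the largest possible one (of order `2 ^ g g!`), or contains, for each pair of complex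
conjugate embeddings, an element which exchanges them and fixes all other embeddings, or contains all
the automorphisms that exchange two pairs in this sense (`g > 2`); several such fields with linearly
disjoint normal closures have it together (for example there are infinite families of imaginary
quadratic fields). We fix an isomorphism `ν` of the algebraic closure of `ℚ_p` with `ℂ`; it defines a
`p`-adic valuation `v` of `ℂ` with `v p = 1`. Let `π i` be a Weil number for `q = p ^ a` in `K i` whose
slope vector, the function `2 v (φ π) - a` on the complex embeddings `φ` (`slopeVector`), is not zero
(there are no other conditions on the slopes).

For finite subsets `J` of `I` let `f i`, `i` in `J`, be monic polynomials whose complex roots are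
conjugates of `π i` (`IsPolyOf`), for instance the characteristic polynomials of Frobenius of the abelian
varieties in the isogeny classes of the `π i` over the field with `q` elements. Let `A` be an abelian
variety over the field with `Q = q ^ s` elements which is isogenous to a product of powers of abelian
varieties coming from the field with `q` elements, with characteristic polynomials `f i`, `i` in `J`
(`IsAbelian`).

Let `Ω` be a finite set of complex numbers, stable under the automorphisms of `ℂ`, whose elements are
nonzero and lie in CM fields or in totally real fields (`IsStable`). A number `ρ` is generated by `Ω`
(`Generated p Ω`) if it is not zero and a power of it is a product of powers of elements of `Ω` and of a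
power of `p`. Let `X` be
**any** separated scheme of finite type over the field with `Q` elements (singular, not proper) such
that the Frobenius endomorphism of `X` satisfies on each group of `ℓ`-adic homology and on each group
of motivic homology of `A × X` a nonzero rational polynomial all of whose complex roots are
generated by `Ω`. (For `ℓ`-adic homology this says that the Frobenius eigenvalues of `X`
are generated by `Ω`. For motivic homology it is true for instance if moreover `X` has a stratification by
open subsets of smooth projective varieties with finite-dimensional motives and Frobenius
eigenvalues generated by `Ω`.)

**The theorem: there is a finite subset `S` of `I` with `∑ [K i : ℚ] ≤ |Ω|`, the sum over `i` in `S`,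
such that for all finite sets `J` disjoint from `S`, all `f i`, `s`, `A` and `X` as above the
statement below is true.** The set `S` depends only on `Ω` and the `π i`, and not on the powers of
the abelian varieties, on the finite field or on `X`. The Frobenius eigenvalues on the cohomology of
varieties are Weil numbers, by Deligne, and so they form a set like `Ω`; for varieties dominated by
products of curves or by abelian varieties the eigenvalues on `H^1` of the factors are sufficient.
So if `B i` are the simple abelian varieties of the `π i` (of dimension `[K i : ℚ] / 2`, for instance
if they are ordinary), **the exceptional ones have together at most the dimension `|Ω| / 2`,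
whatever the abelian varieties are.** The bound is sharp: for `B 1 × ⋯ × B r` (and its powers) `Ω` has
`2 ∑ dim B i` elements, and all the `B i` are exceptional: there are divisor classes in
`H^1(B i) ⊗ H^1(B 1 × ⋯ × B r)`. My `AllCMTypesTimes` is about the case that the Frobenius eigenvalues
are unrelated to the fields `K i`. **Here they are arbitrary**: they may generate the same fields `K i`,
or fields containing them.

The groups are indexed cohomologically: let `e` be a fixed number and
`T^i(X, j) = H^M_(2 e - i)(X, ℚ(e - j)) ⊗ ℚ_ℓ`, `R^i(X, j) = H_(2 e - i)(X, ℚ_ℓ(e - j))`, and the same
for `A × X` with `e + dim A` instead of `e`, so that the product with a cycle of codimension `c` on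
`A` has the bidegree `(2 c, c)`. The Frobenius endomorphism of `X` is to be read as `Q ^ e` times the
geometric Frobenius on the homology without twist, and as `Q ^ e` times the inverse of the
push-forward on motivic homology; then the invariants are the elements on which it is multiplication
by `Q ^ j`. Then for all `i` and `j` **the following is true for `A × X` in the
bidegree `(i, j)` if and only if it is true for `X` in the bidegrees `(i - 2 k, j - k)`,
`0 ≤ k ≤ dim A`: the regulator is an isomorphism onto the Frobenius invariants, and the eigenvalue
(`1` after the twist) of Frobenius is semisimple.** In particular `TB(A × X)` is equivalent to
`TB(X)`. If `TB(X)` holds then `TB` holds for all the products `A × X`. (The regulator is always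
compatible with Frobenius, so its image consists of invariants.)

The framework: the Chow ring and the ring of correspondences of `A`, with rational coefficients, and
the cohomology of `A`, with the formal properties and the theorems of Tate on divisors and of Kimura
on the nilpotence of homologically trivial correspondences (`AbelianData`, `IsAbelian`); and theories
relative to `X` (`RelData`, `IsRel`): the groups `H^i(X, j)` and `H^i(A × X, j)`, with the products
with classes on `A`, the push-forward from `A × X` to `X`, the operation of the correspondences from
`A` to `A` on `H^i(A × X, j)` and the Frobenius endomorphism of `X`. This is the framework of the
starting file `AlmostAllAbelianFactors` (MP_81b968_ag). Here the Frobenius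
endomorphism of `A × X` is supposed to preserve the bidegrees (`PreservesDegrees`), and the one on
motivic homology is multiplication by `Q ^ j` (`IsPure`).

The proof. Let `x i` be the slope vectors of the `π i`. If a product of a number `ρ` generated by `Ω`
and of roots of the `f i`, no two of them complex conjugate, is a power of `q` up to a root of unity,
then, computing valuations, there are odd functions `n i` on the embeddings of the `K i`, not all zero,
such that the function `σ ↦ ∑ n i φ * x i (σ φ)` of the automorphisms `σ` of `ℂ` (the sum over all `i` and
all embeddings `φ`) is in the space `F` spanned by the functions `σ ↦ v (σ β) - v (conj (σ β))`, `β` in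
`Ω`. This space is stable under translations. So we can average over the automorphisms which fix a
given embedding `φ₀` of `K i`: by the pair flips the average of an odd function is zero except at `φ₀`
and its conjugate, so that the function `σ ↦ x i (σ φ₀)` is in `F` if `n i φ₀` is not zero, and then the
same is true for all embeddings of this field `K i` (`EF.orb_mem`). Let `S` be the set of all `i` such
that these functions are in `F`. Again by the pair flips, the functions `σ ↦ x i (σ φ)`, for all `i` and
one `φ` out of each complex conjugate pair, are linearly independent. As the dimension of `F` is at most
`|Ω| / 2` (conjugate `β` give opposite functions), `∑ [K i : ℚ] / 2`, the sum over `S`, is at most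
`|Ω| / 2` (`EF.exists_exceptional`), and outside of `S` there are no such relations
(`EF.exactPair_of`).
If a Weil number `α` of the cohomology of `A` and a root `ρ` of the polynomial of the Frobenius
endomorphism `φ` of `X` have the product `Q ^ j`, then `α` is a product of pairs of complex conjugate
numbers, so that the eigenvectors of the Frobenius endomorphism `F` of `A` for `α` are products of
divisor classes. Let `p` be the projector given by dual systems `D t`, `E t` of products of divisor
classes on `A`. For a suitable polynomial `P` the correspondence `(1 - p) P (F)` is homologically
trivial, hence nilpotent, and `P (F)` is invertible on the elements on which `F φ` acts as `Q ^ j`,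
since there `F` satisfies the polynomial with the roots `Q ^ j / ρ`. So `p` acts there as the
identity. The same is true for the
generalized eigenvectors of `F φ` for `Q ^ j`: on them `F` satisfies a power of the polynomial with the
roots `Q ^ j / ρ`.
-/

set_option autoImplicit false

namespace Pool.Agent.Results.MP_2ce3e7_ag.EveryVarietyTimes

open NumberField Pool.Agent.V1168.EF
open Pool.Agent.V1168.EV (PairFlips slopeVector)

/-- **The generalized conjecture of Tate and Beilinson for `A × X` in the bidegree `(i, j)` is equivalent
to the one for `X` in the bidegrees `(i - 2 k, j - k)`, `0 ≤ k ≤ dim A`, for all `X`
with Frobenius eigenvalues generated by the stable finite set `Ω` and all abelian varieties `A` given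
by Weil numbers in a family of CM fields with pair flips, without factors in an exceptional set `S`
with `∑ [K i : ℚ] ≤ |Ω|`.** -/
theorem result {p : ℕ} [Fact p.Prime] (ν : PadicAlgCl p ≃+* ℂ) {I : Type}
    (K : I → Type) [∀ i, Field (K i)] [∀ i, NumberField (K i)] [∀ i, IsCMField (K i)]
    (hK : PairFlips K) (a : ℕ) (ha : 0 < a) (π : ∀ i, K i)
    (hπ : ∀ i, π i * IsCMField.complexConj (K i) (π i) = (p : K i) ^ a)
    (hs : ∀ i, ∃ φ, slopeVector ν a (π i) φ ≠ 0) (Ω : Finset ℂ) (hΩ : IsStable Ω) :
    ∃ S : Finset I, ∑ i ∈ S, Module.finrank ℚ (K i) ≤ Ω.card ∧
      ForAllPolys π (p ^ a) S (fun _ q f => TateBeilinsonHigher p Ω q f) := by
  obtain ⟨S, hS, h⟩ := exists_factors ν hK ha hπ hs hΩ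
  exact ⟨S, hS, h _ fun J q f hq hR => tateBeilinsonHigher hq hR⟩

end Pool.Agent.Results.MP_2ce3e7_ag.EveryVarietyTimes
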