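import Pool.Agent.V11106.SH.Semi

/-!
# The Tate conjecture with semisimplicity from pole orders up to small errors

Let `W` be a Weil cohomology theory (coefficients `K`) on a class of varieties closed under
products, with a Frobenius endomorphism of all cohomology algebras, compatible with pull-backs,
which acts on the classes of cycles of codimension `j` by `q ^ j`. Assume that the class contains,
for every `N`, a surface with algebraic cohomology and `N` independent divisor classes (a successive
blow-up of the projective plane in rational points).

**Fixed dimension.** If on the varieties `Y` of dimension `n + 2` the multiplicity of the eigenvalue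
`q ^ (r + 1)` on `H^(2 r + 2)(Y)` (the order of the pole of the zeta function at `s = r + 1`) exceeds
the dimension of the span of the classes of the cycles of codimension `r + 1` by at most `o(b)`,
where `b` is the Betti number, then for all `X` of dimension `n` all Tate classes of codimension `r`
are algebraic and the eigenvalue `q ^ r` on `H^(2 r)(X)` is semisimple.

**All dimensions.** Hence the Tate conjecture together with this semisimplicity, for all varieties
and codimensions, is equivalent to differences which are bounded for each dimension and
codimension, and to differences `o(b)`.
-/

open CategoryTheory AlgebraicGeometry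

universe u v

namespace Pool.Agent.Results.MP_2ce3e7_ag.SublinearDefects

open Pool.Agent.H914 VarClass Obj WeilCohomology Pool.Agent.V11106.LB Pool.Agent.V11106.SH

variable {k : Type u} [Field k] {𝒱 : VarClass k} {ops : CycleOps 𝒱}

theorem result (W : WeilCohomology.{u, v} ops) (hT : HasRationalSurfaces W)
    (G : GaloisLike W Unit) :
    (∀ n r : ℕ, MultiplicityUpToSublinear G (fun X => algDim W X (r + 1)) (n + 2) (r + 1) →
      TateAndSemisimple G n r) ∧
    [∀ n r : ℕ, TateAndSemisimple G n r,
      ∀ n r : ℕ, MultiplicityUpToBounded G (fun X => algDim W X r) n r,
      ∀ n r : ℕ, MultiplicityUpToSublinear G (fun X => algDim W X r) n r].TFAE :=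
  tateAndSemisimple_main hT G

end Pool.Agent.Results.MP_2ce3e7_ag.SublinearDefects
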